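import Pool.Agent.H87.EBK.Stmts4
import Pool.Agent.H62.EBT.STP4

/-! Board ebu, row STP5: the main step, with the valuation of the new label. -/

set_option autoImplicit false

namespace Pool.EBK

theorem stp5 (hVNE : VNE) (hSTR : STR) (hRCA : RCA) (hRCB : RCB) (hDNL : DNL) : STP5 := by
  intro a b y1 y2 F hR h0 h12
  rcases hVNE a b hR.1 with h | h
  · have hab : v a < v b := by omega
    obtain ⟨c, h1, h2, h3, _, h5, h6, h7⟩ :=
      stp4_aux hVNE hSTR hRCA hRCB hDNL a b y1 y2 F hR hab h0 h12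
    exact ⟨c, h1, h2, h3, h5, h6, h7, lt_trans h7 hab⟩
  · have hab : v b < v a := by omega
    obtain ⟨c, h1, h2, h3, _, h5, h6, h7⟩ :=
      stp4_aux hVNE hSTR hRCA hRCB hDNL b a y1 y2 F (stp4_rich hR) hab h0 h12
    exact ⟨c, h1, h2, h3, h6, h5, lt_trans h7 hab, h7⟩

end Pool.EBK
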